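import Pool.Agent.Helper35.HSF.StH

/-!
Project HSF (MP_925021_gt), module PIH: the pinching for a short time.
-/

set_option autoImplicit false

namespace Helper42.HSF

open Helper35.HSF Helper35.MS Helper35.PI Helper35.PI2 Helper32.CL
open scoped ContDiff Manifold Topology BigOperators
open MeasureTheory Set Filter

section Cal

variable {n : ℕ} {V : Type} [NormedAddCommGroup V] [NormedSpace ℝ V]

/-- spatial derivative -/
noncomputable def pD (f : EE n × ℝ → V) (z : EE n × ℝ) : EE n →L[ℝ] V :=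
  fderiv ℝ (fun y => f (y, z.2)) z.1

lemma pD_eq {T : Set (EE n)} (hT : IsOpen T) {I : Set ℝ} {g : EE n × ℝ → V}
    (hg : ContDiffOn ℝ ∞ g (T ×ˢ I)) {z : EE n × ℝ} (hz : z ∈ T ×ˢ I) :
    pD g z = (fderivWithin ℝ g (T ×ˢ I) z).comp (ContinuousLinearMap.inl ℝ (EE n) ℝ) := by
  obtain ⟨y, s⟩ := z
  have hd : DifferentiableWithinAt ℝ g (T ×ˢ I) (y, s) :=
    (hg.differentiableOn (by simp)) (y, s) hz
  have h1 : HasFDerivWithinAt g (fderivWithin ℝ g (T ×ˢ I) (y, s)) (T ×ˢ I) (y, s) :=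
    hd.hasFDerivWithinAt
  have h2 : HasFDerivWithinAt (fun y' : EE n => (y', s))
      (ContinuousLinearMap.inl ℝ (EE n) ℝ) T y := by
    have h3 : HasFDerivAt (fun y' : EE n => (y', s))
        ((ContinuousLinearMap.id ℝ (EE n)).prod (0 : EE n →L[ℝ] ℝ)) y :=
      (hasFDerivAt_id y).prodMk (hasFDerivAt_const s y)
    exact h3.hasFDerivWithinAt
  have hm : MapsTo (fun y' : EE n => (y', s)) T (T ×ˢ I) := fun y' hy' => ⟨hy', hz.2⟩
  have h4 : HasFDerivWithinAt (fun y' : EE n => g (y', s))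
      ((fderivWithin ℝ g (T ×ˢ I) (y, s)).comp (ContinuousLinearMap.inl ℝ (EE n) ℝ)) T y :=
    h1.comp y h2 hm
  exact (h4.hasFDerivAt (hT.mem_nhds hz.1)).fderiv

lemma pD_smooth {T : Set (EE n)} (hT : IsOpen T) {I : Set ℝ} (hI : UniqueDiffOn ℝ I)
    {g : EE n × ℝ → V} (hg : ContDiffOn ℝ ∞ g (T ×ˢ I)) : ContDiffOn ℝ ∞ (pD g) (T ×ˢ I) := by
  have hUD : UniqueDiffOn ℝ (T ×ˢ I) := hT.uniqueDiffOn.prod hI
  have h1 : ContDiffOn ℝ ∞ (fderivWithin ℝ g (T ×ˢ I)) (T ×ˢ I) := hg.fderivWithin hUD (by simp)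
  have h2 : ContDiffOn ℝ ∞ (fun z => (fderivWithin ℝ g (T ×ˢ I) z).comp
      (ContinuousLinearMap.inl ℝ (EE n) ℝ)) (T ×ˢ I) := h1.clm_comp contDiffOn_const
  exact h2.congr fun z hz => pD_eq hT hg hz

lemma chain1 {f f₀ : EE n → V} {φ : EE n → EE n} {y : EE n} (hφ : ContDiffAt ℝ ∞ φ y)
    (hf₀ : ContDiffAt ℝ ∞ f₀ (φ y)) (hf : f =ᶠ[𝓝 y] fun y' => f₀ (φ y')) :
    fderiv ℝ f y = (fderiv ℝ f₀ (φ y)).comp (fderiv ℝ φ y) := by
  rw [hf.fderiv_eq]
  exact fderiv_comp y (hf₀.differentiableAt (by simp)) (hφ.differentiableAt (by simp))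

lemma chain2 {f f₀ : EE n → V} {φ : EE n → EE n} {y : EE n} (hφ : ContDiffAt ℝ ∞ φ y)
    (hf₀ : ContDiffAt ℝ ∞ f₀ (φ y)) (hf : f =ᶠ[𝓝 y] fun y' => f₀ (φ y')) (v w : EE n) :
    fderiv ℝ (fderiv ℝ f) y v w = fderiv ℝ (fderiv ℝ f₀) (φ y) (fderiv ℝ φ y v) (fderiv ℝ φ y w)
      + fderiv ℝ f₀ (φ y) (fderiv ℝ (fderiv ℝ φ) y v w) := by
  have h2le : (2 : WithTop ℕ∞) ≤ ∞ := by
    have : ((2 : ℕ∞) : WithTop ℕ∞) ≤ ((⊤ : ℕ∞) : WithTop ℕ∞) := WithTop.coe_le_coe.2 le_top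
    exact this
  have hφ2 : ContDiffAt ℝ 2 φ y := hφ.of_le h2le
  have hf2 : ContDiffAt ℝ 2 f₀ (φ y) := hf₀.of_le h2le
  have e1 : ∀ᶠ y' in 𝓝 y, ContDiffAt ℝ 2 φ y' := hφ2.eventually (by simp)
  have e2 : ∀ᶠ y' in 𝓝 y, ContDiffAt ℝ 2 f₀ (φ y') :=
    hφ.continuousAt.eventually (hf2.eventually (by simp))
  have e3 : ∀ᶠ y' in 𝓝 y, f =ᶠ[𝓝 y'] fun y'' => f₀ (φ y'') := hf.eventuallyEq_nhds
  have h1 : fderiv ℝ f =ᶠ[𝓝 y] fun y' => (fderiv ℝ f₀ (φ y')).comp (fderiv ℝ φ y') := by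
    filter_upwards [e1, e2, e3] with y' h1 h2 h3
    rw [h3.fderiv_eq]
    exact fderiv_comp y' (h2.differentiableAt (by norm_num)) (h1.differentiableAt (by norm_num))
  rw [h1.fderiv_eq]
  have hA : HasFDerivAt (fun y' => fderiv ℝ f₀ (φ y'))
      ((fderiv ℝ (fderiv ℝ f₀) (φ y)).comp (fderiv ℝ φ y)) y := by
    have h3 : HasFDerivAt (fderiv ℝ f₀) (fderiv ℝ (fderiv ℝ f₀) (φ y)) (φ y) :=
      ((hf2.fderiv_right (m := 1) (by norm_num)).differentiableAt (by norm_num)).hasFDerivAt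
    exact h3.comp y (hφ.differentiableAt (by simp)).hasFDerivAt
  have hB : HasFDerivAt (fderiv ℝ φ) (fderiv ℝ (fderiv ℝ φ) y) y :=
    ((hφ2.fderiv_right (m := 1) (by norm_num)).differentiableAt (by norm_num)).hasFDerivAt
  rw [(hA.clm_comp hB).fderiv]
  simp only [add_apply, ContinuousLinearMap.comp_apply, ContinuousLinearMap.compL_apply,
    ContinuousLinearMap.flip_apply]
  abel

lemma dv2_D2 {N : ℕ} {f : EE n → EE N} {x : EE n} (hf : ContDiffAt ℝ ∞ f x) (i j : Fin n) :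
    dv2 f x i j = fderiv ℝ (fderiv ℝ f) x (ee i) (ee j) := by
  have h2le : (2 : WithTop ℕ∞) ≤ ∞ := by
    have : ((2 : ℕ∞) : WithTop ℕ∞) ≤ ((⊤ : ℕ∞) : WithTop ℕ∞) := WithTop.coe_le_coe.2 le_top
    exact this
  have hf2 : ContDiffAt ℝ 2 f x := hf.of_le h2le
  have hB : HasFDerivAt (fderiv ℝ f) (fderiv ℝ (fderiv ℝ f) x) x :=
    ((hf2.fderiv_right (m := 1) (by norm_num)).differentiableAt (by norm_num)).hasFDerivAt
  have h4 : HasFDerivAt (fun y => fderiv ℝ f y (ee j))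
      ((ContinuousLinearMap.apply ℝ (EE N) (ee j : EE n)).comp (fderiv ℝ (fderiv ℝ f) x)) x :=
    ((ContinuousLinearMap.apply ℝ (EE N) (ee j : EE n)).hasFDerivAt).comp x hB
  unfold dv2
  rw [h4.fderiv]
  rfl

lemma vec_sum (w : EE n) : w = ∑ i, w i • (ee i : EE n) := by
  ext j
  simp [ee, Pi.single_apply]

lemma bil_sum {N : ℕ} (B : EE n →L[ℝ] EE n →L[ℝ] EE N) (w : EE n) :
    B w w = ∑ i, ∑ j, (w i * w j) • B (ee i) (ee j) := by
  have h1 : B w = ∑ i, w i • B (ee i) := by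
    conv_lhs => rw [vec_sum w, map_sum]
    simp only [map_smul]
  rw [h1, sum_apply]
  refine Finset.sum_congr rfl fun i _ => ?_
  have h2 : B (ee i) w = ∑ j, w j • B (ee i) (ee j) := by
    conv_lhs => rw [vec_sum w, map_sum]
    simp only [map_smul]
  rw [smul_apply, h2, Finset.smul_sum]
  refine Finset.sum_congr rfl fun j _ => ?_
  rw [smul_smul]

end Cal

section Abs

variable {X : Type} [TopologicalSpace X] {n : ℕ}

lemma abs_pin {S : Set X} {x₀ : X} (hx₀ : x₀ ∈ S) {P Q : X → EE n → ℝ}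
    (hcP : ContinuousOn (fun p : X × EE n => P p.1 p.2) (S ×ˢ univ))
    (hcQ : ContinuousOn (fun p : X × EE n => Q p.1 p.2) (S ×ˢ univ))
    (homP : ∀ x (r : ℝ) w, P x (r • w) = r ^ 2 * P x w)
    (homQ : ∀ x (r : ℝ) w, Q x (r • w) = r ^ 2 * Q x w)
    (hPpos : ∀ w : EE n, w ≠ 0 → 0 < P x₀ w)
    (hlt : ∀ w : EE n, P x₀ w = 1 → |Q x₀ w| < 1) :
    ∃ τ : ℝ, 0 < τ ∧ τ < 1 ∧ ∀ᶠ x in 𝓝 x₀, x ∈ S → ∀ w, P x w = 1 → |Q x w| < τ := by
  have hlt' : ∀ w : EE n, w ≠ 0 → |Q x₀ w| < P x₀ w := by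
    intro w hw
    have h1 := hPpos w hw
    set r : ℝ := (Real.sqrt (P x₀ w))⁻¹ with hr
    have h2 : r ^ 2 * P x₀ w = 1 := by
      rw [hr, inv_pow, Real.sq_sqrt h1.le, inv_mul_cancel₀ h1.ne']
    have h3 := hlt (r • w) (by rw [homP, h2])
    rw [homQ, abs_mul, abs_of_nonneg (sq_nonneg r)] at h3
    have h4 : 0 < r ^ 2 := by
      rcases (sq_nonneg r).lt_or_eq with h5 | h5
      · exact h5
      · rw [← h5, zero_mul] at h2
        exact absurd h2 zero_ne_one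
    by_contra h5
    rw [not_lt] at h5
    have h6 := mul_le_mul_of_nonneg_left h5 h4.le
    linarith
  have hne : ∀ w ∈ Metric.sphere (0 : EE n) 1, w ≠ 0 := by
    intro w hw h
    rw [mem_sphere_zero_iff_norm, h, norm_zero] at hw
    exact zero_ne_one hw
  -- a constant at `x₀`
  obtain ⟨τ, hτ0, hτ1, hτ⟩ : ∃ τ : ℝ, 0 < τ ∧ τ < 1 ∧ ∀ w ∈ Metric.sphere (0 : EE n) 1,
      |Q x₀ w| < τ * P x₀ w := by
    rcases (Metric.sphere (0 : EE n) 1).eq_empty_or_nonempty with h | h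
    · refine ⟨1 / 2, by norm_num, by norm_num, ?_⟩
      rw [h]
      intro w hw
      exact absurd hw (notMem_empty w)
    · have hm : MapsTo (fun w : EE n => ((x₀, w) : X × EE n))
          (Metric.sphere (0 : EE n) 1) (S ×ˢ univ) :=
        fun w _ => ⟨hx₀, mem_univ _⟩
      have hc : Continuous (fun w : EE n => ((x₀, w) : X × EE n)) := by fun_prop
      have c1 : ContinuousOn (fun w => P x₀ w) (Metric.sphere (0 : EE n) 1) :=
        hcP.comp hc.continuousOn hm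
      have c2 : ContinuousOn (fun w => Q x₀ w) (Metric.sphere (0 : EE n) 1) :=
        hcQ.comp hc.continuousOn hm
      have c3 : ContinuousOn (fun w => |Q x₀ w| / P x₀ w)
          (Metric.sphere (0 : EE n) 1) := c2.abs.div c1 fun w hw => (hPpos w (hne w hw)).ne'
      obtain ⟨w₀, hw₀, hmax⟩ := (isCompact_sphere (0 : EE n) 1).exists_isMaxOn h c3
      have h1 : |Q x₀ w₀| / P x₀ w₀ < 1 :=
        (div_lt_one (hPpos w₀ (hne w₀ hw₀))).2 (hlt' w₀ (hne w₀ hw₀))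
      have h1' : 0 ≤ |Q x₀ w₀| / P x₀ w₀ :=
        div_nonneg (abs_nonneg _) (hPpos w₀ (hne w₀ hw₀)).le
      refine ⟨(1 + |Q x₀ w₀| / P x₀ w₀) / 2, by linarith, by linarith, ?_⟩
      intro w hw
      have h2 : |Q x₀ w| / P x₀ w ≤ |Q x₀ w₀| / P x₀ w₀ := hmax hw
      rw [← div_lt_iff₀ (hPpos w (hne w hw))]
      linarith
  -- near `x₀`
  have hev : ∀ w ∈ Metric.sphere (0 : EE n) 1, ∀ᶠ p : X × EE n in 𝓝 (x₀, w),
      p.1 ∈ S → |Q p.1 p.2| < τ * P p.1 p.2 := by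
    intro w hw
    have h1 : ((x₀, w) : X × EE n) ∈ S ×ˢ (univ : Set (EE n)) := ⟨hx₀, mem_univ _⟩
    have h2 : ContinuousWithinAt (fun p : X × EE n => τ * P p.1 p.2 - |Q p.1 p.2|)
        (S ×ˢ univ) (x₀, w) :=
      ((hcP _ h1).const_mul τ).sub (hcQ _ h1).abs
    have h3 : 0 < τ * P x₀ w - |Q x₀ w| := sub_pos.2 (hτ w hw)
    have h4 := h2.eventually (lt_mem_nhds h3)
    rw [eventually_nhdsWithin_iff] at h4
    filter_upwards [h4] with p hp1 hp2
    have := hp1 ⟨hp2, mem_univ _⟩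
    linarith
  have hall := (isCompact_sphere (0 : EE n) 1).eventually_forall_of_forall_eventually
    (P := fun x w => x ∈ S → |Q x w| < τ * P x w) hev
  refine ⟨τ, hτ0, hτ1, ?_⟩
  filter_upwards [hall] with x hx hxS w hw
  have hwne : w ≠ 0 := by
    intro h
    have h1 := homP x 0 w
    rw [zero_smul, h] at h1
    rw [h] at hw
    rw [hw] at h1
    norm_num at h1
  have hwn : 0 < ‖w‖ := norm_pos_iff.2 hwne
  have hS : ‖w‖⁻¹ • w ∈ Metric.sphere (0 : EE n) 1 := by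
    rw [mem_sphere_zero_iff_norm, norm_smul, norm_inv, norm_norm, inv_mul_cancel₀ hwn.ne']
  have h1 := hx _ hS hxS
  rw [homP, homQ, hw, mul_one, abs_mul, abs_of_nonneg (sq_nonneg _)] at h1
  have h2 : 0 < ‖w‖⁻¹ ^ 2 := by positivity
  by_contra h3
  rw [not_lt] at h3
  have h4 := mul_le_mul_of_nonneg_left h3 h2.le
  linarith

end Abs

section Geo

variable {n N : ℕ} {M : Type} [TopologicalSpace M] [ChartedSpace (EE n) M]
  [IsManifold (𝓡 n) ∞ M] {I : Set ℝ}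

/-- the flow in the preferred chart at `q₀` -/
noncomputable def fch (F : M → ℝ → EE N) (q₀ : M) : EE n × ℝ → EE N :=
  fun z => F ((chartAt (EE n) q₀).symm z.1) z.2

omit [IsManifold (𝓡 n) ∞ M] in
lemma loc_eq (F : M → ℝ → EE N) (q₀ : M) (t : ℝ) :
    loc (n := n) F q₀ t = fun y => fch F q₀ (y, t) := rfl

lemma fch_smooth {F : M → ℝ → EE N}
    (hF : ContMDiffOn ((𝓡 n).prod 𝓘(ℝ, ℝ)) 𝓘(ℝ, EE N) ∞ (fun z : M × ℝ => F z.1 z.2)
      (univ ×ˢ I)) (q₀ : M) :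
    ContDiffOn ℝ ∞ (fch F q₀) ((chartAt (EE n) q₀).target ×ˢ I) := by
  have h1 : ContMDiffOn (𝓡 n) (𝓡 n) ∞ (chartAt (EE n) q₀).symm (chartAt (EE n) q₀).target :=
    contMDiffOn_chart_symm
  have h2 : ContMDiffOn ((𝓡 n).prod 𝓘(ℝ, ℝ)) ((𝓡 n).prod 𝓘(ℝ, ℝ)) ∞
      (fun z : EE n × ℝ => ((chartAt (EE n) q₀).symm z.1, z.2))
      ((chartAt (EE n) q₀).target ×ˢ I) := by
    refine ContMDiffOn.prodMk ?_ ?_
    · exact h1.comp contMDiff_fst.contMDiffOn (fun z hz => hz.1)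
    · exact contMDiff_snd.contMDiffOn
  have h3 : ContMDiffOn ((𝓡 n).prod 𝓘(ℝ, ℝ)) 𝓘(ℝ, EE N) ∞ (fch F q₀)
      ((chartAt (EE n) q₀).target ×ˢ I) := by
    have := hF.comp h2 (fun z hz => ⟨mem_univ _, hz.2⟩)
    exact this
  rw [← contMDiffOn_iff_contDiffOn]
  rw [modelWithCornersSelf_prod, ← chartedSpaceSelf_prod]
  exact h3

lemma slice_smooth {F : M → ℝ → EE N}
    (hF : ContMDiffOn ((𝓡 n).prod 𝓘(ℝ, ℝ)) 𝓘(ℝ, EE N) ∞ (fun z : M × ℝ => F z.1 z.2)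
      (univ ×ˢ I)) (q₀ : M) {t : ℝ} (ht : t ∈ I) {y : EE n}
    (hy : y ∈ (chartAt (EE n) q₀).target) : ContDiffAt ℝ ∞ (loc (n := n) F q₀ t) y := by
  have h1 := fch_smooth hF q₀
  have h2 : ContDiffOn ℝ ∞ (fun y : EE n => ((y, t) : EE n × ℝ)) (chartAt (EE n) q₀).target :=
    (contDiff_id.prodMk contDiff_const).contDiffOn
  have h3 : ContDiffOn ℝ ∞ (loc (n := n) F q₀ t) (chartAt (EE n) q₀).target :=
    h1.comp h2 fun y hy => ⟨hy, ht⟩
  exact h3.contDiffAt ((chartAt (EE n) q₀).open_target.mem_nhds hy)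

/-- the change of charts -/
noncomputable def tr (M : Type) [TopologicalSpace M] [ChartedSpace (EE n) M] (q q₀ : M) :
    EE n → EE n := fun y => chartAt (EE n) q₀ ((chartAt (EE n) q).symm y)

lemma tr_smooth {q q₀ p : M} (hq : p ∈ (chartAt (EE n) q).source)
    (hq₀ : p ∈ (chartAt (EE n) q₀).source) :
    ContDiffAt ℝ ∞ (tr (n := n) M q q₀) (chartAt (EE n) q p) := by
  have h1 : ContMDiffAt (𝓡 n) (𝓡 n) ∞ (chartAt (EE n) q).symm (chartAt (EE n) q p) :=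
    (contMDiffOn_chart_symm (I := 𝓡 n) (n := ∞) (x := q)).contMDiffAt
      ((chartAt (EE n) q).open_target.mem_nhds ((chartAt (EE n) q).map_source hq))
  have h2 : ContMDiffAt (𝓡 n) (𝓡 n) ∞ (chartAt (EE n) q₀) p :=
    (contMDiffOn_chart (I := 𝓡 n) (n := ∞) (x := q₀)).contMDiffAt
      ((chartAt (EE n) q₀).open_source.mem_nhds hq₀)
  have h3 : ContMDiffAt (𝓡 n) (𝓡 n) ∞ (tr (n := n) M q q₀) (chartAt (EE n) q p) := by
    refine ContMDiffAt.comp (chartAt (EE n) q p) (g := chartAt (EE n) q₀) ?_ h1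
    rw [(chartAt (EE n) q).left_inv hq]
    exact h2
  exact contMDiffAt_iff_contDiffAt.1 h3

omit [IsManifold (𝓡 n) ∞ M] in
lemma tr_apply {q q₀ p : M} (hq : p ∈ (chartAt (EE n) q).source) :
    tr (n := n) M q q₀ (chartAt (EE n) q p) = chartAt (EE n) q₀ p := by
  unfold tr
  rw [(chartAt (EE n) q).left_inv hq]

omit [IsManifold (𝓡 n) ∞ M] in
lemma loc_tr (F : M → ℝ → EE N) (t : ℝ) {q q₀ p : M} (hq : p ∈ (chartAt (EE n) q).source)
    (hq₀ : p ∈ (chartAt (EE n) q₀).source) :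
    loc (n := n) F q t =ᶠ[𝓝 (chartAt (EE n) q p)]
      fun y => loc (n := n) F q₀ t (tr (n := n) M q q₀ y) := by
  have h1 : ContinuousAt (chartAt (EE n) q).symm (chartAt (EE n) q p) :=
    (chartAt (EE n) q).continuousAt_symm ((chartAt (EE n) q).map_source hq)
  have h2 : ∀ᶠ y in 𝓝 (chartAt (EE n) q p),
      (chartAt (EE n) q).symm y ∈ (chartAt (EE n) q₀).source := by
    apply h1.eventually
    rw [(chartAt (EE n) q).left_inv hq]
    exact (chartAt (EE n) q₀).open_source.mem_nhds hq₀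
  filter_upwards [h2] with y hy
  unfold loc tr
  rw [(chartAt (EE n) q₀).left_inv hy]

variable {F ν : M → ℝ → EE (n + 2)}

omit [IsManifold (𝓡 n) ∞ M] in
/-- `gn` in terms of the derivative -/
lemma gn_fd (F : M → ℝ → EE (n + 2)) (q : M) (t : ℝ) (w : EE n) :
    gn F q t (fun i => w i) = ‖fderiv ℝ (loc (n := n) F q t) (chartAt (EE n) q q) w‖ ^ 2 := by
  unfold gn tv
  conv_rhs => rw [vec_sum w, map_sum]
  simp only [map_smul]
  rfl

lemma hn_fd (hF : SMCF n I F) (hν : UNI n I F ν) (q : M) {t : ℝ} (ht : t ∈ I) (w : EE n) :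
    hn F ν q t (fun i => w i) = inner ℝ
      (fderiv ℝ (fderiv ℝ (loc (n := n) F q t)) (chartAt (EE n) q q) w w) (ν q t) := by
  have hd : ContDiffAt ℝ ∞ (loc (n := n) F q t) (chartAt (EE n) q q) :=
    slice_smooth hF.smooth q ht ((chartAt (EE n) q).map_source (mem_chart_source (EE n) q))
  have h1 : ∀ i j, (inner ℝ (sff (loc (n := n) F q t) (chartAt (EE n) q q) i j) (ν q t) : ℝ)
      = inner ℝ (fderiv ℝ (fderiv ℝ (loc (n := n) F q t)) (chartAt (EE n) q q)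
          (ee i) (ee j)) (ν q t) := by
    intro i j
    rw [← dv2_D2 hd i j]
    have h2 : ∀ l, (inner ℝ (dv1 (loc (n := n) F q t) (chartAt (EE n) q q) l) (ν q t) : ℝ)
        = 0 := by
      intro l
      exact hν.tν q t ht _ (Submodule.subset_span ⟨l, rfl⟩)
    unfold sff nrm
    rw [inner_sub_left, sum_inner]
    simp only [sum_inner, inner_smul_left, h2, mul_zero, Finset.sum_const_zero, sub_zero]
  unfold hn An
  rw [sum_inner]
  simp only [sum_inner, inner_smul_left, h1]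
  rw [bil_sum, sum_inner]
  refine Finset.sum_congr rfl fun i _ => ?_
  rw [sum_inner]
  refine Finset.sum_congr rfl fun j _ => ?_
  rw [inner_smul_left]

/-- `gn`, `hn` in the chart at `q₀` -/
lemma gh_chart (hF : SMCF n I F) (hν : UNI n I F ν) {q₀ q : M}
    (hq : q ∈ (chartAt (EE n) q₀).source) {t : ℝ} (ht : t ∈ I) (c : Fin n → ℝ) :
    ∃ w : EE n, gn F q t c = ‖pD (fch F q₀) (chartAt (EE n) q₀ q, t) w‖ ^ 2 ∧
      hn F ν q t c = inner ℝ (pD (pD (fch F q₀)) (chartAt (EE n) q₀ q, t) w w) (ν q t) := by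
  set v : EE n := WithLp.toLp 2 c with hv
  have hvc : (fun i => v i) = c := rfl
  have hqq := mem_chart_source (EE n) q
  have hd₀ : ContDiffAt ℝ ∞ (loc (n := n) F q₀ t) (tr (n := n) M q q₀ (chartAt (EE n) q q)) := by
    rw [tr_apply hqq]
    exact slice_smooth hF.smooth q₀ ht ((chartAt (EE n) q₀).map_source hq)
  have hd : ContDiffAt ℝ ∞ (loc (n := n) F q t) (tr (n := n) M q₀ q (chartAt (EE n) q₀ q)) := by
    rw [tr_apply hq]
    exact slice_smooth hF.smooth q ht ((chartAt (EE n) q).map_source hqq)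
  have hφ := tr_smooth (n := n) hqq hq
  have hψ := tr_smooth (n := n) hq hqq
  refine ⟨fderiv ℝ (tr (n := n) M q q₀) (chartAt (EE n) q q) v, ?_, ?_⟩
  · rw [← hvc, gn_fd, chain1 hφ hd₀ (loc_tr F t hqq hq), tr_apply hqq]
    rfl
  · rw [← hvc, hn_fd hF hν q ht, chain2 hφ hd₀ (loc_tr F t hqq hq), tr_apply hqq, inner_add_left]
    have h0 : ∀ u : EE n, (inner ℝ (fderiv ℝ (loc (n := n) F q₀ t) (chartAt (EE n) q₀ q) u)
        (ν q t) : ℝ) = 0 := by
      intro u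
      rw [chain1 hψ hd (loc_tr F t hq hqq), tr_apply hq, ContinuousLinearMap.comp_apply]
      apply hν.tν q t ht
      rw [vec_sum (fderiv ℝ (tr (n := n) M q₀ q) (chartAt (EE n) q₀ q) u), map_sum]
      refine Submodule.sum_mem _ fun i _ => ?_
      rw [map_smul]
      exact Submodule.smul_mem _ _ (Submodule.subset_span ⟨i, rfl⟩)
    rw [h0, add_zero]
    rfl

/-- the pinching near one point -/
lemma pin_local (hI : UniqueDiffOn ℝ I) (h0 : (0 : ℝ) ∈ I) (hF : SMCF n I F)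
    (hν : UNI n I F ν)
    (hp : ∀ q, ∀ c : Fin n → ℝ, gn F q 0 c = 1 → |hn F ν q 0 c| < 1) (q₀ : M) :
    ∃ W ∈ 𝓝 q₀, ∃ τ δ : ℝ, 0 < τ ∧ τ < 1 ∧ 0 < δ ∧ ∀ t ∈ I, 0 ≤ t → t < δ → ∀ q ∈ W,
      ∀ c : Fin n → ℝ, gn F q t c = 1 → |hn F ν q t c| < τ := by
  have hx : q₀ ∈ (chartAt (EE n) q₀).source := mem_chart_source (EE n) q₀
  have hf : ContDiffOn ℝ ∞ (fch F q₀) ((chartAt (EE n) q₀).target ×ˢ I) :=
    fch_smooth hF.smooth q₀
  have hD1 : ContDiffOn ℝ ∞ (pD (fch F q₀)) ((chartAt (EE n) q₀).target ×ˢ I) :=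
    pD_smooth (chartAt (EE n) q₀).open_target hI hf
  have hD2 : ContDiffOn ℝ ∞ (pD (pD (fch F q₀))) ((chartAt (EE n) q₀).target ×ˢ I) :=
    pD_smooth (chartAt (EE n) q₀).open_target hI hD1
  have hc1 : ContinuousOn (fun p : (M × ℝ) × EE n =>
      ((chartAt (EE n) q₀ p.1.1, p.1.2) : EE n × ℝ))
      (((chartAt (EE n) q₀).source ×ˢ I) ×ˢ univ) :=
    ((chartAt (EE n) q₀).continuousOn.comp (continuous_fst.comp continuous_fst).continuousOn
      (fun p hp => hp.1.1)).prodMk (continuous_snd.comp continuous_fst).continuousOn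
  have hcP : ContinuousOn (fun p : (M × ℝ) × EE n =>
      ‖pD (fch F q₀) (chartAt (EE n) q₀ p.1.1, p.1.2) p.2‖ ^ 2)
      (((chartAt (EE n) q₀).source ×ˢ I) ×ˢ univ) := by
    have h2 := hD1.continuousOn.comp hc1
      (fun p hp => ⟨(chartAt (EE n) q₀).map_source hp.1.1, hp.1.2⟩)
    exact ((h2.clm_apply continuous_snd.continuousOn).norm).pow 2
  have hcQ : ContinuousOn (fun p : (M × ℝ) × EE n =>
      (inner ℝ (pD (pD (fch F q₀)) (chartAt (EE n) q₀ p.1.1, p.1.2) p.2 p.2)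
        (ν p.1.1 p.1.2) : ℝ)) (((chartAt (EE n) q₀).source ×ˢ I) ×ˢ univ) := by
    have h2 := hD2.continuousOn.comp hc1
      (fun p hp => ⟨(chartAt (EE n) q₀).map_source hp.1.1, hp.1.2⟩)
    have h3 : ContinuousOn (fun p : (M × ℝ) × EE n => ν p.1.1 p.1.2)
        (((chartAt (EE n) q₀).source ×ˢ I) ×ˢ univ) :=
      hν.sν.continuousOn.comp continuous_fst.continuousOn (fun p hp => ⟨mem_univ _, hp.1.2⟩)
    exact ((h2.clm_apply continuous_snd.continuousOn).clm_apply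
      continuous_snd.continuousOn).inner h3
  obtain ⟨τ, hτ0, hτ1, hall⟩ := abs_pin (X := M × ℝ) (n := n)
    (S := (chartAt (EE n) q₀).source ×ˢ I) (x₀ := (q₀, 0))
    (P := fun x w => ‖pD (fch F q₀) (chartAt (EE n) q₀ x.1, x.2) w‖ ^ 2)
    (Q := fun x w => inner ℝ (pD (pD (fch F q₀)) (chartAt (EE n) q₀ x.1, x.2) w w) (ν x.1 x.2))
    ⟨hx, h0⟩ hcP hcQ
    (fun x r w => by
      simp only [map_smul, norm_smul, mul_pow, Real.norm_eq_abs, sq_abs])
    (fun x r w => by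
      simp only [map_smul, smul_apply, inner_smul_left, conj_trivial]
      ring)
    (fun w hw => by
      have h1 : pD (fch F q₀) (chartAt (EE n) q₀ q₀, 0) w ≠ 0 := by
        intro h2
        apply hw
        have h3 : ∑ i, w i • dv1 (loc (n := n) F q₀ 0) (chartAt (EE n) q₀ q₀) i = 0 := by
          rw [← h2]
          conv_rhs => rw [vec_sum w, map_sum]
          simp only [map_smul]
          rfl
        have h4 := Fintype.linearIndependent_iff.1 (hF.imm q₀ 0 h0) (fun i => w i) h3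
        ext i
        simpa using h4 i
      have h5 : 0 < ‖pD (fch F q₀) (chartAt (EE n) q₀ q₀, 0) w‖ := norm_pos_iff.2 h1
      exact pow_pos h5 2)
    (fun w hw => by
      have h1 := hp q₀ (fun i => w i) (by rw [gn_fd]; exact hw)
      rw [hn_fd hF hν q₀ h0 w] at h1
      exact h1)
  rw [nhds_prod_eq, eventually_prod_iff] at hall
  obtain ⟨pa, hpa, pb, hpb, hab⟩ := hall
  obtain ⟨δ, hδ, hδb⟩ := Metric.eventually_nhds_iff.1 hpb
  refine ⟨{q | pa q} ∩ (chartAt (EE n) q₀).source,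
    inter_mem hpa ((chartAt (EE n) q₀).open_source.mem_nhds hx), τ, δ, hτ0, hτ1, hδ, ?_⟩
  rintro t ht ht0 htδ q ⟨hq1, hq2⟩ c hc
  obtain ⟨w, hw1, hw2⟩ := gh_chart hF hν hq2 ht c
  have hb : pb t := hδb (by rw [Real.dist_eq, sub_zero, abs_of_nonneg ht0]; exact htδ)
  have h1 := hab hq1 hb ⟨hq2, ht⟩ w (by rw [← hc, hw1])
  rw [hw2]
  exact h1

end Geo

/-- PIH -/
theorem hPIH : StPIH := by
  intro n _ M _ _ _ _ _ I F ν hI h0 hF hν hp
  have key := (isCompact_univ (X := M)).induction_on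
    (p := fun W : Set M => ∃ τ δ : ℝ, 0 < τ ∧ τ < 1 ∧ 0 < δ ∧ ∀ t ∈ I, 0 ≤ t → t < δ →
      ∀ q ∈ W, ∀ c : Fin n → ℝ, gn F q t c = 1 → |hn F ν q t c| < τ)
    ⟨1 / 2, 1, by norm_num, by norm_num, by norm_num, fun t _ _ _ q hq => absurd hq
      (notMem_empty q)⟩
    (fun W W' hW ⟨τ, δ, h1, h2, h3, h4⟩ => ⟨τ, δ, h1, h2, h3, fun t ht h5 h6 q hq =>
      h4 t ht h5 h6 q (hW hq)⟩)
    (fun W W' ⟨τ, δ, h1, h2, h3, h4⟩ ⟨τ', δ', h1', h2', h3', h4'⟩ =>
      ⟨max τ τ', min δ δ', lt_max_of_lt_left h1, max_lt h2 h2', lt_min h3 h3',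
        fun t ht h5 h6 q hq c hc => by
          rcases hq with hq | hq
          · exact (h4 t ht h5 (lt_of_lt_of_le h6 (min_le_left _ _)) q hq c hc).trans_le
              (le_max_left _ _)
          · exact (h4' t ht h5 (lt_of_lt_of_le h6 (min_le_right _ _)) q hq c hc).trans_le
              (le_max_right _ _)⟩)
    (fun q₀ _ => by
      obtain ⟨W, hW, hW'⟩ := pin_local hI h0 hF hν hp q₀
      exact ⟨W, mem_nhdsWithin_of_mem_nhds hW, hW'⟩)
  obtain ⟨τ, δ, h1, h2, h3, h4⟩ := key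
  exact ⟨τ, δ, h1, h2, h3, fun t ht h5 h6 q c hc => h4 t ht h5 h6 q (mem_univ q) c hc⟩

end Helper42.HSF
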