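import Mathlib
import Pool.Agent.Helper35.HSF.StC
import Pool.Agent.Helper40.HSF.M_WEI

/-!
Project HSF (MP_925021_gt), module DVW: the divergence of `⟨a,ν⟩ X - ⟨X,ν⟩ a` on a hypersurface of the
sphere.
-/

set_option autoImplicit false

namespace Helper42.HSF

open Helper35.HSF Helper35.MS Helper35.PI Helper35.PI2 Helper32.CL
open scoped ContDiff Manifold Topology ENNReal BigOperators
open MeasureTheory Set Filter

/-- the algebra: an orthonormal frame `E`, `ν`, `F/ρ`, a symmetric tangential `B`, the operator `D` -/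
theorem alg {n : ℕ} (E B : Fin n → EE (n + 2)) (ν F X a HH : EE (n + 2)) (ρ : ℝ) (hρ : 0 < ρ)
    (D : EE (n + 2) →ₗ[ℝ] EE (n + 2))
    (hE : ∀ i j, (inner ℝ (E i) (E j) : ℝ) = if i = j then 1 else 0)
    (hEν : ∀ i, (inner ℝ (E i) ν : ℝ) = 0) (hEF : ∀ i, (inner ℝ (E i) F : ℝ) = 0)
    (hν : ‖ν‖ = 1) (hF : ‖F‖ = ρ) (hFν : (inner ℝ F ν : ℝ) = 0)
    (hBν : ∀ i, (inner ℝ (B i) ν : ℝ) = 0) (hBF : ∀ i, (inner ℝ (B i) F : ℝ) = 0)
    (hS : ∀ i j, (inner ℝ (B i) (E j) : ℝ) = inner ℝ (B j) (E i))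
    (hD : D F = -((n : ℝ) • X))
    (hH : ∀ i, (inner ℝ HH (E i) : ℝ) = 0) (hHF : (inner ℝ HH F : ℝ) = -n) :
    (∑ i, (inner ℝ ((inner ℝ a (B i) : ℝ) • X + (inner ℝ a ν : ℝ) • D (E i)
        - ((inner ℝ (D (E i)) ν : ℝ) + inner ℝ X (B i)) • a) (E i) : ℝ))
      + inner ℝ HH ((inner ℝ a ν : ℝ) • X - (inner ℝ X ν : ℝ) • a)
      = inner ℝ a ν * (∑ i, (inner ℝ (D (ee i)) (ee i) : ℝ)) - inner ℝ (D a) ν := by
  -- the orthonormal basis
  obtain ⟨v, hv⟩ : ∃ v : Fin n ⊕ Fin 2 → EE (n + 2),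
      v = Sum.elim E ![ν, ρ⁻¹ • F] := ⟨_, rfl⟩
  have hνν : (inner ℝ ν ν : ℝ) = 1 := by rw [real_inner_self_eq_norm_sq, hν]; norm_num
  have hFF : (inner ℝ F F : ℝ) = ρ ^ 2 := by rw [real_inner_self_eq_norm_sq, hF]
  have hνF : (inner ℝ ν F : ℝ) = 0 := by rw [real_inner_comm]; exact hFν
  have hνE : ∀ i, (inner ℝ ν (E i) : ℝ) = 0 := fun i => by rw [real_inner_comm]; exact hEν i
  have hFE : ∀ i, (inner ℝ F (E i) : ℝ) = 0 := fun i => by rw [real_inner_comm]; exact hEF i
  have hvo : Orthonormal ℝ v := by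
    rw [orthonormal_iff_ite]
    rintro (i | i) (j | j)
    · rw [hv]; simp only [Sum.elim_inl, hE, Sum.inl.injEq]
    · rw [hv]
      fin_cases j
      · simp [hEν]
      · simp [inner_smul_right, hEF]
    · rw [hv]
      fin_cases i
      · simp [hνE]
      · simp [inner_smul_left, hFE]
    · rw [hv]
      fin_cases i <;> fin_cases j
      · simp [hν]
      · simp [inner_smul_right, hνF]
      · simp [inner_smul_left, hFν]
      · simp only [Sum.elim_inr, Fin.mk_one, Matrix.cons_val_one, Matrix.cons_val_fin_one,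
          inner_smul_left, inner_smul_right, hFF]
        simp only [conj_trivial, if_true]
        field_simp
  obtain ⟨b, hb⟩ := Orthonormal.exists_orthonormalBasis_extension_of_card_eq (𝕜 := ℝ)
    (E := EE (n + 2)) (ι := Fin n ⊕ Fin 2) (by simp) (v := v) (s := univ)
    (by
      have := hvo.comp (fun i : (univ : Set (Fin n ⊕ Fin 2)) => (i : Fin n ⊕ Fin 2))
        Subtype.val_injective
      exact this)
  have hb1 : ∀ i, b (Sum.inl i) = E i := fun i => by rw [hb _ (mem_univ _), hv]; rfl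
  have hb2 : b (Sum.inr 0) = ν := by rw [hb _ (mem_univ _), hv]; rfl
  have hb3 : b (Sum.inr 1) = ρ⁻¹ • F := by rw [hb _ (mem_univ _), hv]; rfl
  -- expansion of a vector
  have hexp : ∀ x : EE (n + 2), x = (∑ i, (inner ℝ (E i) x : ℝ) • E i) + (inner ℝ ν x : ℝ) • ν
      + ((inner ℝ F x : ℝ) / ρ ^ 2) • F := by
    intro x
    have h1 := b.sum_repr' x
    rw [Fintype.sum_sum_type, Fin.sum_univ_two, hb2, hb3] at h1
    simp only [hb1] at h1
    have h2 : (inner ℝ (ρ⁻¹ • F) x : ℝ) • (ρ⁻¹ • F) = ((inner ℝ F x : ℝ) / ρ ^ 2) • F := by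
      rw [inner_smul_left, smul_smul]
      congr 1
      simp only [conj_trivial]
      field_simp
    rw [h2, ← add_assoc] at h1
    exact h1.symm
  -- the trace
  have htr : (∑ i, (inner ℝ (D (ee i)) (ee i) : ℝ)) = (∑ i, (inner ℝ (D (E i)) (E i) : ℝ))
      + inner ℝ (D ν) ν + (inner ℝ (D F) F : ℝ) / ρ ^ 2 := by
    have h1 := D.trace_eq_sum_inner b
    have h2 := D.trace_eq_sum_inner (EuclideanSpace.basisFun (Fin (n + 2)) ℝ)
    rw [h1, Fintype.sum_sum_type, Fin.sum_univ_two, hb2, hb3] at h2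
    simp only [hb1] at h2
    have h3 : (∑ i, (inner ℝ (D (ee i)) (ee i) : ℝ))
        = ∑ i, (inner ℝ (EuclideanSpace.basisFun (Fin (n + 2)) ℝ i)
          (D (EuclideanSpace.basisFun (Fin (n + 2)) ℝ i)) : ℝ) := by
      apply Finset.sum_congr rfl
      intro i _
      rw [real_inner_comm]
      simp only [EuclideanSpace.basisFun_apply]
      rfl
    rw [h3, ← h2]
    have h4 : (inner ℝ (ρ⁻¹ • F) (D (ρ⁻¹ • F)) : ℝ) = (inner ℝ (D F) F : ℝ) / ρ ^ 2 := by
      rw [map_smul, inner_smul_left, inner_smul_right, real_inner_comm F]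
      simp only [conj_trivial]
      field_simp
    rw [h4, real_inner_comm ν (D ν)]
    have h5 : ∀ i, (inner ℝ (E i) (D (E i)) : ℝ) = inner ℝ (D (E i)) (E i) :=
      fun i => real_inner_comm _ _
    simp only [h5]
    rw [real_inner_comm (D ν) ν]
    ring
  have hBx : ∀ i, ∀ x : EE (n + 2), (inner ℝ x (B i) : ℝ)
      = ∑ j, (inner ℝ (B i) (E j) : ℝ) * inner ℝ x (E j) := by
    intro i x
    have h1 := hexp (B i)
    have h2 : (inner ℝ ν (B i) : ℝ) = 0 := by rw [real_inner_comm]; exact hBν i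
    have h3 : (inner ℝ F (B i) : ℝ) = 0 := by rw [real_inner_comm]; exact hBF i
    rw [h2, h3, zero_smul, zero_div, zero_smul, add_zero, add_zero] at h1
    conv_lhs => rw [h1]
    rw [inner_sum]
    apply Finset.sum_congr rfl
    intro j _
    rw [inner_smul_right, real_inner_comm (B i) (E j)]
  have hcancel : ∑ i, (inner ℝ a (B i) : ℝ) * inner ℝ X (E i)
      = ∑ i, (inner ℝ X (B i) : ℝ) * inner ℝ a (E i) := by
    simp only [hBx _ a, hBx _ X, Finset.sum_mul]
    rw [Finset.sum_comm]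
    apply Finset.sum_congr rfl
    intro i _
    apply Finset.sum_congr rfl
    intro j _
    rw [hS j i]
    ring
  have hDa : (inner ℝ (D a) ν : ℝ) = (∑ i, (inner ℝ (D (E i)) ν : ℝ) * inner ℝ a (E i))
      + inner ℝ a ν * inner ℝ (D ν) ν + (inner ℝ a F : ℝ) / ρ ^ 2 * inner ℝ (D F) ν := by
    have h1 := hexp a
    conv_lhs => rw [h1]
    rw [map_add, map_add, map_sum, inner_add_left, inner_add_left, sum_inner, map_smul, map_smul,
      inner_smul_left, inner_smul_left]
    simp only [map_smul, inner_smul_left, conj_trivial]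
    rw [real_inner_comm a ν, real_inner_comm a F]
    congr 1
    congr 1
    apply Finset.sum_congr rfl
    intro i _
    rw [real_inner_comm a (E i)]
    ring
  have hHH : HH = (inner ℝ ν HH : ℝ) • ν + (-(n : ℝ) / ρ ^ 2) • F := by
    have h1 := hexp HH
    have h2 : ∀ i, (inner ℝ (E i) HH : ℝ) = 0 := fun i => by rw [real_inner_comm]; exact hH i
    have h3 : (inner ℝ F HH : ℝ) = -n := by rw [real_inner_comm]; exact hHF
    simp only [h2, zero_smul, Finset.sum_const_zero, zero_add, h3] at h1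
    exact h1
  have hHW : (inner ℝ HH ((inner ℝ a ν : ℝ) • X - (inner ℝ X ν : ℝ) • a) : ℝ)
      = -(n : ℝ) / ρ ^ 2 * (inner ℝ a ν * inner ℝ X F - inner ℝ X ν * inner ℝ a F) := by
    rw [hHH, inner_add_left, inner_smul_left, inner_smul_left, inner_sub_right, inner_sub_right,
      inner_smul_right, inner_smul_right, inner_smul_right, inner_smul_right]
    simp only [conj_trivial]
    rw [real_inner_comm X ν, real_inner_comm a ν, real_inner_comm X F, real_inner_comm a F]
    ring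
  have hsum : (∑ i, (inner ℝ ((inner ℝ a (B i) : ℝ) • X + (inner ℝ a ν : ℝ) • D (E i)
        - ((inner ℝ (D (E i)) ν : ℝ) + inner ℝ X (B i)) • a) (E i) : ℝ))
      = inner ℝ a ν * (∑ i, (inner ℝ (D (E i)) (E i) : ℝ))
        - ∑ i, (inner ℝ (D (E i)) ν : ℝ) * inner ℝ a (E i) := by
    have h1 : ∀ i, (inner ℝ ((inner ℝ a (B i) : ℝ) • X + (inner ℝ a ν : ℝ) • D (E i)
        - ((inner ℝ (D (E i)) ν : ℝ) + inner ℝ X (B i)) • a) (E i) : ℝ)
        = (inner ℝ a (B i) : ℝ) * inner ℝ X (E i) - (inner ℝ X (B i) : ℝ) * inner ℝ a (E i)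
          + (inner ℝ a ν * inner ℝ (D (E i)) (E i)
            - (inner ℝ (D (E i)) ν : ℝ) * inner ℝ a (E i)) := by
      intro i
      rw [inner_sub_left, inner_add_left, inner_smul_left, inner_smul_left, inner_smul_left]
      simp only [conj_trivial]
      ring
    simp only [h1]
    rw [Finset.sum_add_distrib, Finset.sum_sub_distrib, hcancel, sub_self, zero_add,
      Finset.sum_sub_distrib, Finset.mul_sum]
  rw [hsum, hHW, htr, hDa, hD]
  rw [inner_neg_left, inner_neg_left, inner_smul_left, inner_smul_left]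
  simp only [conj_trivial]
  ring

theorem hDVW (hFR : StFR) (hNR : StNR) (hI3J : StI3J) : StDVW := by
  intro n M _ _ _ ρ t F ν h X q a hX hXF W hW
  obtain ⟨hWE, -⟩ := Helper40.HSF.hWEI hI3J hNR n M ρ t F ν h
  obtain ⟨y0, hy0⟩ : ∃ y0, y0 = chartAt (EE n) q q := ⟨_, rfl⟩
  have hqq : q ∈ (chartAt (EE n) q).source := mem_chart_source (EE n) q
  have hyt : y0 ∈ (chartAt (EE n) q).target := hy0 ▸ (chartAt (EE n) q).map_source hqq
  have hsy : (chartAt (EE n) q).symm y0 = q := by rw [hy0]; exact (chartAt (EE n) q).left_inv hqq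
  have hsF : ∀ y ∈ (chartAt (EE n) q).target,
      ContDiffAt ℝ ∞ (fun y => F ((chartAt (EE n) q).symm y) t) y :=
    fun y hy => Helper40.HSF.smooth_at (G := fun q => F q t) h.sF q hy
  have hsν : ∀ y ∈ (chartAt (EE n) q).target,
      ContDiffAt ℝ ∞ (fun y => ν ((chartAt (EE n) q).symm y) t) y :=
    fun y hy => Helper40.HSF.smooth_at (G := fun q => ν q t) h.sν q hy
  obtain ⟨f, hf⟩ : ∃ f : EE n → EE (n + 2), f = fun y => F ((chartAt (EE n) q).symm y) t :=
    ⟨_, rfl⟩
  obtain ⟨N, hN⟩ : ∃ N : EE n → EE (n + 2), N = fun y => ν ((chartAt (EE n) q).symm y) t :=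
    ⟨_, rfl⟩
  have hloc : loc (n := n) F q t = f := by rw [hf]; rfl
  have hsf : ∀ y ∈ (chartAt (EE n) q).target, ContDiffAt ℝ ∞ f y := by rw [hf]; exact hsF
  have hsN : ∀ y ∈ (chartAt (EE n) q).target, ContDiffAt ℝ ∞ N y := by rw [hN]; exact hsν
  have hdf : DifferentiableAt ℝ f y0 := (hsf y0 hyt).differentiableAt (by simp)
  have hdN : DifferentiableAt ℝ N y0 := (hsN y0 hyt).differentiableAt (by simp)
  have hf0 : f y0 = F q t := by rw [hf]; simp only [hsy]
  have hN0 : N y0 = ν q t := by rw [hN]; simp only [hsy]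
  have h1 : ∀ y ∈ (chartAt (EE n) q).target, ∀ v, (inner ℝ (fderiv ℝ f y v) (N y) : ℝ) = 0 := by
    intro y hy v
    rw [hf, hN]
    exact (hWE q y hy v).1
  have h2 : ∀ y ∈ (chartAt (EE n) q).target, ∀ v, (inner ℝ (fderiv ℝ N y v) (N y) : ℝ) = 0 := by
    intro y hy v
    rw [hN]
    exact (hWE q y hy v).2.1
  have h3 : ∀ y ∈ (chartAt (EE n) q).target, ∀ v, (inner ℝ (fderiv ℝ N y v) (f y) : ℝ) = 0 := by
    intro y hy v
    rw [hf, hN]
    exact (hWE q y hy v).2.2.1
  have h4 : ∀ y ∈ (chartAt (EE n) q).target, ∀ v, (inner ℝ (fderiv ℝ f y v) (f y) : ℝ) = 0 := by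
    intro y hy v
    rw [hf]
    exact (hWE q y hy v).2.2.2
  -- second derivatives
  have hd2 : ∀ v, DifferentiableAt ℝ (fun y' => fderiv ℝ f y' v) y0 := by
    intro v
    have h2 : ContDiffAt ℝ 2 f y0 :=
      (hsf y0 hyt).of_le (by
        have : ((2 : ℕ∞) : WithTop ℕ∞) ≤ ((⊤ : ℕ∞) : WithTop ℕ∞) := WithTop.coe_le_coe.2 le_top
        exact this)
    exact ((h2.fderiv_right (m := 1) (by norm_num)).differentiableAt (by norm_num)).clm_apply
      (differentiableAt_const v)
  have hsecN : ∀ u v, (inner ℝ (fderiv ℝ (fun y' => fderiv ℝ f y' v) y0 u) (N y0) : ℝ)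
      = - inner ℝ (fderiv ℝ f y0 v) (fderiv ℝ N y0 u) := by
    intro u v
    have e1 := fderiv_inner_apply ℝ (hd2 v) hdN u
    have e2 : (fun y' => (inner ℝ (fderiv ℝ f y' v) (N y') : ℝ)) =ᶠ[𝓝 y0] fun _ => 0 := by
      filter_upwards [(chartAt (EE n) q).open_target.mem_nhds hyt] with y' hy'
      exact h1 y' hy' v
    rw [e2.fderiv_eq] at e1
    simp only [fderiv_fun_const, Pi.zero_apply, zero_apply] at e1
    linarith
  have hsecF : ∀ u v, (inner ℝ (fderiv ℝ (fun y' => fderiv ℝ f y' v) y0 u) (f y0) : ℝ)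
      = - inner ℝ (fderiv ℝ f y0 v) (fderiv ℝ f y0 u) := by
    intro u v
    have e1 := fderiv_inner_apply ℝ (hd2 v) hdf u
    have e2 : (fun y' => (inner ℝ (fderiv ℝ f y' v) (f y') : ℝ)) =ᶠ[𝓝 y0] fun _ => 0 := by
      filter_upwards [(chartAt (EE n) q).open_target.mem_nhds hyt] with y' hy'
      exact h4 y' hy' v
    rw [e2.fderiv_eq] at e1
    simp only [fderiv_fun_const, Pi.zero_apply, zero_apply] at e1
    linarith
  have hsym : ∀ u v, (inner ℝ (fderiv ℝ N y0 u) (fderiv ℝ f y0 v) : ℝ)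
      = inner ℝ (fderiv ℝ N y0 v) (fderiv ℝ f y0 u) := by
    intro u v
    have e1 := hsecN u v
    have e2 := hsecN v u
    rw [Helper40.HSF.snd_symm (hsf y0 hyt) u v, e2] at e1
    rw [real_inner_comm (fderiv ℝ f y0 v), real_inner_comm (fderiv ℝ f y0 u)]
    linarith
  -- independence
  have hLI : LI f y0 := by
    rw [← hloc, hy0]; exact h.im q
  obtain ⟨hpos, hunit, P, hP1, -, -, hP2, -, -, -⟩ := hFR n (n + 2) f y0 hLI
  obtain ⟨n1, n2, n3, n4, n5, n6, n7, n8⟩ := hNR n (n + 2) f y0 hLI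
  obtain ⟨p, hp⟩ : ∃ p : Fin n → EE n, ∀ c, p c = WithLp.toLp 2 (fun i => P i c) :=
    ⟨_, fun _ => rfl⟩
  have hpc : ∀ c i, p c i = P i c := fun c i => by rw [hp]
  have hfp : ∀ c, fderiv ℝ f y0 (p c) = ∑ i, P i c • dv1 f y0 i := by
    intro c
    rw [Helper40.HSF.fderiv_sum]
    simp only [hpc]
  have hG : ∀ i j, (gram f y0)⁻¹ i j = ∑ c, P i c * P j c := by
    intro i j
    rw [hP1, Matrix.mul_apply]
    simp only [Matrix.transpose_apply]
  -- the derivative of W in the chart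
  obtain ⟨D, hDdef⟩ : ∃ D : EE (n + 2) →L[ℝ] EE (n + 2), D = fderiv ℝ X (F q t) := ⟨_, rfl⟩
  have hXf : HasFDerivAt (fun y => X (f y)) (D.comp (fderiv ℝ f y0)) y0 := by
    have e1 : HasFDerivAt X D (f y0) := by
      rw [hf0, hDdef]
      exact (hX.differentiableAt (by simp)).hasFDerivAt
    exact e1.comp y0 hdf.hasFDerivAt
  have hWy : (fun y => W ((chartAt (EE n) q).symm y))
      = fun y => (inner ℝ a (N y) : ℝ) • X (f y) - (inner ℝ (X (f y)) (N y) : ℝ) • a := by
    rw [hW, hf, hN]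
  have hWd : ∀ u, fderiv ℝ (fun y => W ((chartAt (EE n) q).symm y)) y0 u
      = (inner ℝ a (fderiv ℝ N y0 u) : ℝ) • X (F q t) + (inner ℝ a (ν q t) : ℝ) • D (fderiv ℝ f y0 u)
        - ((inner ℝ (D (fderiv ℝ f y0 u)) (ν q t) : ℝ)
          + inner ℝ (X (F q t)) (fderiv ℝ N y0 u)) • a := by
    intro u
    rw [hWy]
    have e1 : DifferentiableAt ℝ (fun y => (inner ℝ a (N y) : ℝ)) y0 :=
      (differentiableAt_const a).inner ℝ hdN
    have e2 : DifferentiableAt ℝ (fun y => X (f y)) y0 := hXf.differentiableAt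
    have e3 : DifferentiableAt ℝ (fun y => (inner ℝ (X (f y)) (N y) : ℝ)) y0 := e2.inner ℝ hdN
    have e4 := (e1.hasFDerivAt.smul hXf).sub (e3.hasFDerivAt.smul_const a)
    have e4' : fderiv ℝ (fun y => (inner ℝ a (N y) : ℝ) • X (f y)
        - (inner ℝ (X (f y)) (N y) : ℝ) • a) y0 = _ := e4.fderiv
    rw [e4']
    have e5 := fderiv_inner_apply ℝ (differentiableAt_const a) hdN u
    have e6 := fderiv_inner_apply ℝ e2 hdN u
    simp only [fderiv_fun_const, Pi.zero_apply, zero_apply, inner_zero_left, add_zero] at e5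
    rw [hXf.fderiv] at e6
    simp only [sub_apply, add_apply, smul_apply, ContinuousLinearMap.smulRight_apply,
      ContinuousLinearMap.comp_apply]
    simp only [ContinuousLinearMap.comp_apply] at e6
    rw [e5, e6, hf0, hN0]
    rw [add_comm ((inner ℝ (X (F q t)) _ : ℝ))]
    rw [add_comm ((inner ℝ a (ν q t) : ℝ) • _)]
  -- the divergence through the frame
  have hdvg : dvg (n := n) F W q t
      = ∑ c, (inner ℝ (fderiv ℝ (fun y => W ((chartAt (EE n) q).symm y)) y0 (p c))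
          (fderiv ℝ f y0 (p c)) : ℝ) := by
    unfold dvg
    rw [hloc, ← hy0]
    simp only [hG, Finset.sum_mul]
    have e1 : ∀ c, (inner ℝ (fderiv ℝ (fun y => W ((chartAt (EE n) q).symm y)) y0 (p c))
          (fderiv ℝ f y0 (p c)) : ℝ)
        = ∑ i, ∑ j, P i c * P j c *
          inner ℝ (fderiv ℝ (fun y => W ((chartAt (EE n) q).symm y)) y0 (ee i)) (dv1 f y0 j) := by
      intro c
      rw [hfp c, Helper40.HSF.fderiv_sum, sum_inner]
      apply Finset.sum_congr rfl
      intro i _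
      rw [inner_smul_left, inner_sum, Finset.mul_sum]
      apply Finset.sum_congr rfl
      intro j _
      rw [inner_smul_right, hpc]
      simp only [conj_trivial, dv1]
      ring
    simp only [e1]
    have e2 : ∀ i : Fin n, (∑ j : Fin n, ∑ c : Fin n, P i c * P j c *
          (inner ℝ (fderiv ℝ (fun y => W ((chartAt (EE n) q).symm y)) y0 (ee i))
            (dv1 f y0 j) : ℝ))
        = ∑ c : Fin n, ∑ j : Fin n, P i c * P j c *
          (inner ℝ (fderiv ℝ (fun y => W ((chartAt (EE n) q).symm y)) y0 (ee i))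
            (dv1 f y0 j) : ℝ) := fun i => Finset.sum_comm
    simp only [e2]
    exact Finset.sum_comm
  -- the mean curvature vector
  have hHHdef : HH (n := n) F q t = mcv f y0 := by
    unfold HH
    rw [hloc, ← hy0]
  have hHn : ∀ u, (inner ℝ (HH (n := n) F q t) (fderiv ℝ f y0 u) : ℝ) = 0 := by
    intro u
    rw [hHHdef, Helper40.HSF.fderiv_sum]
    unfold mcv sff
    rw [inner_sum]
    apply Finset.sum_eq_zero
    intro k _
    rw [inner_smul_right, sum_inner]
    rw [Finset.sum_eq_zero, mul_zero]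
    intro i _
    rw [sum_inner]
    apply Finset.sum_eq_zero
    intro j _
    rw [inner_smul_left, n1, mul_zero]
  have hHF : (inner ℝ (HH (n := n) F q t) (F q t) : ℝ) = -n := by
    have e0 : nrm f y0 (F q t) = F q t := by
      apply n4
      intro i
      rw [real_inner_comm, ← hf0]
      exact h4 y0 hyt (ee i)
    have e1 : ∀ i j, (inner ℝ (sff f y0 i j) (F q t) : ℝ) = - gram f y0 i j := by
      intro i j
      unfold sff
      rw [n7, e0, ← hf0]
      have := hsecF (ee i) (ee j)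
      unfold dv2
      rw [this]
      unfold gram dv1
      rw [Matrix.of_apply, real_inner_comm]
    rw [hHHdef]
    unfold mcv
    rw [sum_inner]
    have e2 : ∀ i, (inner ℝ (∑ j, (gram f y0)⁻¹ i j • sff f y0 i j) (F q t) : ℝ)
        = - ∑ j, (gram f y0)⁻¹ i j * gram f y0 j i := by
      intro i
      rw [sum_inner, ← Finset.sum_neg_distrib]
      apply Finset.sum_congr rfl
      intro j _
      rw [inner_smul_left, e1]
      have : gram f y0 i j = gram f y0 j i := by
        unfold gram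
        rw [Matrix.of_apply, Matrix.of_apply, real_inner_comm]
      rw [this]
      simp only [conj_trivial]
      ring
    simp only [e2]
    have e3 : ∀ i, (∑ j, (gram f y0)⁻¹ i j * gram f y0 j i) = 1 := by
      intro i
      rw [← Matrix.mul_apply, Matrix.nonsing_inv_mul _ hunit, Matrix.one_apply_eq]
    simp only [e3]
    rw [Finset.sum_neg_distrib]
    simp
  have hWq : W q = (inner ℝ a (ν q t) : ℝ) • X (F q t) - (inner ℝ (X (F q t)) (ν q t) : ℝ) • a := by
    rw [hW]
  rw [hdvg, hWq]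
  simp only [hWd]
  rw [← hDdef] at hXF ⊢
  have key := alg (n := n) (fun c => fderiv ℝ f y0 (p c)) (fun c => fderiv ℝ N y0 (p c))
    (ν q t) (F q t) (X (F q t)) a (HH (n := n) F q t) ρ h.ρ0 (D : EE (n + 2) →ₗ[ℝ] EE (n + 2))
    (by
      intro i j
      rw [hfp, hfp]
      exact hP2 i j)
    (fun i => by rw [← hN0]; exact h1 y0 hyt _)
    (fun i => by rw [← hf0]; exact h4 y0 hyt _)
    (h.nν q) (h.nF q) (h.Fν q)
    (fun i => by rw [← hN0]; exact h2 y0 hyt _)
    (fun i => by rw [← hf0]; exact h3 y0 hyt _)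
    (fun i j => hsym _ _)
    hXF (fun i => hHn _) hHF
  exact key

end Helper42.HSF
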